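import Pool.Agent.helper19.MX.SpecD

set_option autoImplicit false

namespace MX

open Pool.Agent.helper53.AU AN
open scoped Classical Topology

private theorem GCM_full {k : Type} [Field k] (r : ℕ) (f : ℕ → Polynomial k) :
    gAS r f = ∑ T ∈ (Finset.range r).powerset, ((∑ j ∈ T, f j).natDegree - 1) / 2 := by
  unfold gAS
  apply Finset.sum_erase
  simp only [Finset.sum_empty, Polynomial.natDegree_zero, zero_tsub, Nat.zero_div]

/-- the sum over the sets which contain `r` -/
private noncomputable def GCM_s {k : Type} [Field k] (r : ℕ) (f : ℕ → Polynomial k) (p : Polynomial k) : ℕ :=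
  ∑ T ∈ (Finset.range r).powerset, ((p + ∑ j ∈ T, f j).natDegree - 1) / 2

private theorem GCM_succ {k : Type} [Field k] (r : ℕ) (f : ℕ → Polynomial k) (p : Polynomial k) :
    GCM_s (r + 1) f p = GCM_s r f p + GCM_s r f (p + f r) := by
  unfold GCM_s
  rw [Finset.range_add_one, Finset.sum_powerset_insert Finset.notMem_range_self]
  refine congrArg₂ (· + ·) rfl (Finset.sum_congr rfl fun T hT => ?_)
  have hr : r ∉ T := fun h => Finset.notMem_range_self (Finset.mem_powerset.1 hT h)
  rw [Finset.sum_insert hr, add_assoc]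

private theorem GCM_zero {k : Type} [Field k] (r : ℕ) (f : ℕ → Polynomial k) :
    gAS r f = GCM_s r f 0 := by
  rw [GCM_full]
  unfold GCM_s
  refine Finset.sum_congr rfl fun T _ => ?_
  rw [zero_add]

private theorem GCM_congr {k : Type} [Field k] (r : ℕ) (f g : ℕ → Polynomial k) (p : Polynomial k)
    (h : ∀ j, j < r → f j = g j) : GCM_s r f p = GCM_s r g p := by
  unfold GCM_s
  refine Finset.sum_congr rfl fun T hT => ?_
  have h1 : ∑ j ∈ T, f j = ∑ j ∈ T, g j :=
    Finset.sum_congr rfl fun j hj => h j (Finset.mem_range.1 (Finset.mem_powerset.1 hT hj))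
  rw [h1]

theorem GCM : GCM_stmt := by
  intro k _ r f
  have h1 : ∀ p : Polynomial k, gAS (r + 1) (fun j => if j = r then p else f j) =
      GCM_s r f 0 + GCM_s r f p := by
    intro p
    have h2 : ∀ q : Polynomial k, GCM_s r (fun j => if j = r then p else f j) q = GCM_s r f q :=
      fun q => GCM_congr r _ _ q fun j hj => if_neg (by omega)
    rw [GCM_zero, GCM_succ, h2, h2, zero_add]
    simp only [if_true]
  rw [h1, h1, GCM_zero (r + 2), GCM_zero r, GCM_zero (r + 1), GCM_succ (r + 1) f 0, GCM_succ r f 0,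
    GCM_succ r f (0 + f (r + 1)), zero_add, zero_add, add_comm (f (r + 1)) (f r)]
  omega

end MX
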