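import Pool.Agent.helper19.MX.SpecA

set_option autoImplicit false

namespace MX

open Pool.Agent.helper53.AU AN
open scoped Classical Topology

theorem PSS (hPS1 : PS1_stmt) : PSS_stmt := by
  intro K _ _ _ ι s z
  obtain ⟨h0, h1, -⟩ := hPS1 K
  induction s using Finset.induction_on with
  | empty => rw [Finset.sum_empty, Finset.prod_empty, h0]
  | insert a s ha ih => rw [Finset.sum_insert ha, Finset.prod_insert ha, h1, ih]

end MX
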