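import Pool.Agent.helper19.MX.SpecA

set_option autoImplicit false

namespace MX

open Pool.Agent.helper53.AU AN
open scoped Classical Topology

theorem CSM (hCH2 : CH2_stmt) (hCNG : CNG_stmt) (hCS0 : CS0_stmt) (hCST : CST_stmt) : CSM_stmt := by
  intro K _ _ n hn θ hθ h b hb
  obtain ⟨hch, hn1⟩ := hCH2 K n hn
  induction hb with
  | base b v r y h1 h2 h3 h4 =>
    rw [hCS0 K n hn θ b v r y h1 h2 h3 h4, hθ, ← mul_assoc, ← mul_pow, neg_one_mul, neg_neg, one_pow,
      one_mul, pow_one, pow_succ, mul_comm]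
  | step h b c d β y h1 h2 h3 h4 h5 ih =>
    have h6 : ∀ x : K, fb (h + 1) c x = fb (h + 1) (Ud h b d) x := by
      intro x
      unfold fb
      refine Finset.sum_congr rfl fun i hi => ?_
      rw [Finset.mem_range] at hi
      rw [h5 i (by omega)]
    have h7 : ∑ x : K, ps (fb (h + 1) c x) = ∑ x : K, ps (fb (h + 1) (Ud h b d) x) :=
      Finset.sum_congr rfl fun x _ => by rw [h6 x]
    rw [h7, hCST K h (hCNG K θ h b h1).1 b d β y h2 h3 h4, ih, pow_succ]
    ring

end MX
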